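import Pool.Agent.R184UP.RelComm
import Pool.Agent.R184PI.Factor

/-!
The algebra of the matrices `[[a, b], [0, a]]` over the Cuntz algebra `O_∞`, as the commutant of
a nilpotent in the matrix algebra.
-/

set_option autoImplicit false

open Filter Topology

namespace Pool.Agent.R184UP

open Pool.Agent.R184PI

noncomputable instance instOrderOA : PartialOrder OA := CStarAlgebra.spectralOrder OA

instance instStarOrderedOA : StarOrderedRing OA := CStarAlgebra.spectralOrderedRing OA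

/-- The matrix algebra. -/
abbrev MA : Type := CStarMatrix (Fin 2) (Fin 2) OA

instance instSepMA : TopologicalSpace.SeparableSpace MA :=
  inferInstanceAs (TopologicalSpace.SeparableSpace (Fin 2 → Fin 2 → OA))

/-- The matrix `[[a, b], [0, a]]`. -/
noncomputable def mk (a b : OA) : MA := CStarMatrix.ofMatrix !![a, b; 0, a]

@[simp] theorem mk_00 (a b : OA) : mk a b 0 0 = a := rfl
@[simp] theorem mk_01 (a b : OA) : mk a b 0 1 = b := rfl
@[simp] theorem mk_10 (a b : OA) : mk a b 1 0 = 0 := rfl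
@[simp] theorem mk_11 (a b : OA) : mk a b 1 1 = a := rfl

theorem ext2 {M N : MA} (h00 : M 0 0 = N 0 0) (h01 : M 0 1 = N 0 1) (h10 : M 1 0 = N 1 0)
    (h11 : M 1 1 = N 1 1) : M = N := by
  refine CStarMatrix.ext fun i j => ?_
  fin_cases i <;> fin_cases j
  · exact h00
  · exact h01
  · exact h10
  · exact h11

theorem mul2 (M N : MA) (i j : Fin 2) : (M * N) i j = M i 0 * N 0 j + M i 1 * N 1 j := by
  rw [CStarMatrix.mul_apply, Fin.sum_univ_two]

theorem mk_mul (a b c d : OA) : mk a b * mk c d = mk (a * c) (a * d + b * c) := by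
  refine ext2 ?_ ?_ ?_ ?_ <;> rw [mul2] <;> simp

theorem mk_one : mk 1 0 = 1 := by
  refine ext2 ?_ ?_ ?_ ?_ <;> simp

theorem mk_sub (a b c d : OA) : mk a b - mk c d = mk (a - c) (b - d) := by
  refine ext2 ?_ ?_ ?_ ?_ <;> simp

/-- The scaled nilpotent. -/
noncomputable def nil : MA := ((‖mk 0 1‖ + 1 : ℝ) : ℂ)⁻¹ • mk 0 1

theorem norm_nil_le : ‖nil‖ ≤ 1 := by
  rw [nil, norm_smul, norm_inv, Complex.norm_real, Real.norm_of_nonneg (by positivity),
    inv_mul_le_iff₀ (by positivity), mul_one]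
  linarith

/-- The commutant of the nilpotent. -/
noncomputable abbrev CC : Subalgebra ℂ MA := Subalgebra.centralizer ℂ ({nil} : Set MA)

theorem mem_CC {M : MA} : M ∈ CC ↔ mk 0 1 * M = M * mk 0 1 := by
  rw [CC, Subalgebra.mem_centralizer_iff]
  have h0 : ((‖mk 0 1‖ + 1 : ℝ) : ℂ) ≠ 0 := by
    have : (‖mk 0 1‖ + 1 : ℝ) ≠ 0 := by positivity
    exact_mod_cast this
  constructor
  · intro h
    have h1 := h nil rfl
    rw [nil, smul_mul_assoc, mul_smul_comm] at h1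
    exact smul_right_injective _ (inv_ne_zero h0) h1
  · rintro h _ rfl
    rw [nil, smul_mul_assoc, mul_smul_comm, h]

theorem mk_mem (a b : OA) : mk a b ∈ CC := by
  rw [mem_CC, mk_mul, mk_mul]
  simp

theorem eq_mk {M : MA} (h : M ∈ CC) : M = mk (M 0 0) (M 0 1) := by
  rw [mem_CC] at h
  have h1 : (mk 0 1 * M) 0 0 = (M * mk 0 1) 0 0 := by rw [h]
  have h2 : (mk 0 1 * M) 0 1 = (M * mk 0 1) 0 1 := by rw [h]
  rw [mul2, mul2] at h1 h2
  simp at h1 h2
  exact ext2 rfl rfl h1 h2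

/-- Elements with nonzero diagonal part. -/
theorem exists_factor_one (t : CC) (h : (t : MA) 0 0 ≠ 0) : ∃ u v : CC, u * t * v = 1 := by
  obtain ⟨x, y, hxy⟩ := exists_mul_mul_eq_one h
  refine ⟨⟨mk x (-(x * (t : MA) 0 1 * y * x)), mk_mem _ _⟩, ⟨mk y 0, mk_mem _ _⟩, ?_⟩
  refine Subtype.ext ?_
  change mk x (-(x * (t : MA) 0 1 * y * x)) * (t : MA) * mk y 0 = 1
  rw [eq_mk t.2, mk_mul, mk_mul, ← mk_one]
  simp only [mk_00, mk_01]
  congr 1
  · rw [mul_zero, zero_add, add_mul, neg_mul, neg_mul]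
    have h1 : x * (t : MA) 0 1 * y * x * (t : MA) 0 0 * y =
      x * (t : MA) 0 1 * y * (x * (t : MA) 0 0 * y) := by simp only [mul_assoc]
    rw [h1, hxy, mul_one, add_neg_cancel]

/-- Two orthogonal copies of the unit. -/
theorem exists_pair : ∃ u₁ u₂ v₁ v₂ : CC, u₁ * v₁ = 1 ∧ u₂ * v₂ = 1 ∧ u₁ * v₂ = 0 ∧
    u₂ * v₁ = 0 := by
  let G : ℕ → OA := fun N => ⟨gen N, gen_mem N⟩
  have hG : ∀ i j, star (G i) * G j = if i = j then 1 else 0 := by
    intro i j
    refine Subtype.ext ?_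
    have h := star_gen_mul i j
    split_ifs with hij
    · rw [if_pos hij] at h; exact h
    · rw [if_neg hij] at h; exact h
  have key : ∀ i j, (mk (star (G i)) 0) * (mk (G j) 0) = if i = j then (1 : MA) else 0 := by
    intro i j
    rw [mk_mul, hG]
    simp only [mul_zero, zero_mul, add_zero]
    split_ifs
    · exact mk_one
    · refine ext2 ?_ ?_ ?_ ?_ <;> simp
  refine ⟨⟨mk (star (G 0)) 0, mk_mem _ _⟩, ⟨mk (star (G 1)) 0, mk_mem _ _⟩,
    ⟨mk (G 0) 0, mk_mem _ _⟩, ⟨mk (G 1) 0, mk_mem _ _⟩, ?_, ?_, ?_, ?_⟩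
  · exact Subtype.ext (key 0 0)
  · exact Subtype.ext (key 1 1)
  · exact Subtype.ext (key 0 1)
  · exact Subtype.ext (key 1 0)

/-- The norms of the factors are not bounded. -/
theorem norm_bound (u v : CC) (s : ℂ) (h : u * ⟨mk (algebraMap ℂ OA (1 / 2))
    (algebraMap ℂ OA s), mk_mem _ _⟩ * v = 1) : 2 * ‖s‖ ≤ ‖u‖ * ‖v‖ := by
  have h1 : (u : MA) * mk (algebraMap ℂ OA (1 / 2)) (algebraMap ℂ OA s) * (v : MA) = 1 :=
    congrArg Subtype.val h
  have h2 : mk ((u : MA) 0 0) ((u : MA) 0 1) * mk (algebraMap ℂ OA (1 / 2))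
      (algebraMap ℂ OA s) * mk ((v : MA) 0 0) ((v : MA) 0 1) = mk 1 0 := by
    rw [← eq_mk u.2, ← eq_mk v.2, mk_one]
    exact h1
  rw [mk_mul, mk_mul] at h2
  have h3 := congrArg (fun M : MA => M 0 0) h2
  have h4 := congrArg (fun M : MA => M 0 1) h2
  simp only [mk_00, mk_01] at h3 h4
  set u0 := (u : MA) 0 0 with hu0
  set u1 := (u : MA) 0 1 with hu1
  set v0 := (v : MA) 0 0 with hv0
  set v1 := (v : MA) 0 1 with hv1
  have c1 : u0 * algebraMap ℂ OA (1 / 2) = (1 / 2 : ℂ) • u0 := by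
    rw [Algebra.algebraMap_eq_smul_one, mul_smul_comm, mul_one]
  have c2 : u0 * algebraMap ℂ OA s = s • u0 := by
    rw [Algebra.algebraMap_eq_smul_one, mul_smul_comm, mul_one]
  have c3 : u1 * algebraMap ℂ OA (1 / 2) = (1 / 2 : ℂ) • u1 := by
    rw [Algebra.algebraMap_eq_smul_one, mul_smul_comm, mul_one]
  rw [c1, smul_mul_assoc] at h3
  rw [c1, c2, c3, add_mul, smul_mul_assoc, smul_mul_assoc, smul_mul_assoc] at h4
  have h5 : u0 * v0 = (2 : ℂ) • (1 : OA) := by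
    rw [← h3, smul_smul]; norm_num
  rw [h5] at h4
  have h6 : u0 * v1 + u1 * v0 = (-4 * s) • (1 : OA) := by
    have h7 : (2 : ℂ) • ((1 / 2 : ℂ) • (u0 * v1) + (s • (2 : ℂ) • (1 : OA) +
      (1 / 2 : ℂ) • (u1 * v0))) = 0 := by rw [h4, smul_zero]
    rw [smul_add, smul_add, smul_smul, smul_smul, smul_smul, smul_smul] at h7
    norm_num at h7
    have h8 : u0 * v1 + u1 * v0 = -((2 * s * 2) • (1 : OA)) := by
      rw [eq_neg_iff_add_eq_zero, ← h7]
      abel
    rw [h8, ← neg_smul]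
    congr 1
    ring
  have n1 : ‖(-4 * s) • (1 : OA)‖ = 4 * ‖s‖ := by
    rw [norm_smul, norm_mul, CStarRing.norm_one, mul_one]
    norm_num
  have n2 : ‖u0‖ ≤ ‖u‖ := CStarMatrix.norm_entry_le_norm
  have n3 : ‖u1‖ ≤ ‖u‖ := CStarMatrix.norm_entry_le_norm
  have n4 : ‖v0‖ ≤ ‖v‖ := CStarMatrix.norm_entry_le_norm
  have n5 : ‖v1‖ ≤ ‖v‖ := CStarMatrix.norm_entry_le_norm
  have n6 : ‖u0 * v1 + u1 * v0‖ ≤ ‖u‖ * ‖v‖ + ‖u‖ * ‖v‖ := by
    refine (norm_add_le _ _).trans (add_le_add ?_ ?_)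
    · exact (norm_mul_le _ _).trans (by gcongr)
    · exact (norm_mul_le _ _).trans (by gcongr)
  rw [h6, n1] at n6
  linarith

end Pool.Agent.R184UP
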