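import Pool.Agent.R184UP.Dual

/-!
A Banach space with the primary factorisation property but without its uniform version.
-/

set_option autoImplicit false

open Filter Topology

namespace Pool.Agent.R184UP

open Pool.Agent.R184PI

section

variable {Y : Type} [NormedAddCommGroup Y] [NormedSpace ℂ Y] [CompleteSpace Y]

instance instNontrivialCC : Nontrivial CC := by
  refine ⟨⟨0, 1, fun h => ?_⟩⟩
  have h1 : (0 : MA) = 1 := congrArg Subtype.val h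
  exact zero_ne_one h1

omit [CompleteSpace Y] in
theorem not_finite' (φ : (Y →L[ℂ] Y) →ₐ[ℂ] CC)
    (hφ : ∀ T, φ T = 0 ↔ IsCompactOperator T) : ¬ FiniteDimensional ℂ Y := by
  intro h
  have h1 : IsCompactOperator (1 : Y →L[ℂ] Y) := by
    have : ProperSpace Y := FiniteDimensional.proper_rclike ℂ Y
    exact isCompactOperator_of_locallyCompactSpace_dom (1 : Y →L[ℂ] Y)
  have h2 := (hφ 1).2 h1
  rw [map_one] at h2
  exact one_ne_zero h2

/-- If the identity factors through the class of `S` in the Calkin algebra, then it factors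
through `S`. -/
theorem lift_factor (φ : (Y →L[ℂ] Y) →ₐ[ℂ] CC) (hs : Function.Surjective φ)
    (hφ : ∀ T, φ T = 0 ↔ IsCompactOperator T) {S : Y →L[ℂ] Y} {u v : CC}
    (huv : u * φ S * v = 1) : ∃ U V : Y →L[ℂ] Y, U * S * V = 1 := by
  obtain ⟨u₁, u₂, v₁, v₂, h11, h22, h12, h21⟩ := exists_pair
  obtain ⟨U, rfl⟩ := hs u
  obtain ⟨V, rfl⟩ := hs v
  obtain ⟨A₁, rfl⟩ := hs u₁
  obtain ⟨A₂, rfl⟩ := hs u₂
  obtain ⟨B₁, rfl⟩ := hs v₁
  obtain ⟨B₂, rfl⟩ := hs v₂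
  set R : Y →L[ℂ] Y := U * S * V with hR
  have hφR : φ R = 1 := by rw [hR, map_mul, map_mul, huv]
  -- the compact defects
  have k11 : IsCompactOperator (A₁ * R * B₁ - 1 : Y →L[ℂ] Y) := by
    rw [← hφ, map_sub, map_mul, map_mul, hφR, mul_one, h11, map_one, sub_self]
  have k22 : IsCompactOperator (A₂ * R * B₂ - 1 : Y →L[ℂ] Y) := by
    rw [← hφ, map_sub, map_mul, map_mul, hφR, mul_one, h22, map_one, sub_self]
  have k12 : IsCompactOperator (A₁ * R * B₂ : Y →L[ℂ] Y) := by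
    rw [← hφ, map_mul, map_mul, hφR, mul_one, h12]
  have k21 : IsCompactOperator (A₂ * R * B₁ : Y →L[ℂ] Y) := by
    rw [← hφ, map_mul, map_mul, hφR, mul_one, h21]
  let A : Y →L[ℂ] (Y × Y) := A₁.prod A₂
  let B : (Y × Y) →L[ℂ] Y := B₁.coprod B₂
  let K : (Y × Y) →L[ℂ] (Y × Y) :=
    (((A₁ * R * B₁ - 1 : Y →L[ℂ] Y).comp (ContinuousLinearMap.fst ℂ Y Y) +
      (A₁ * R * B₂ : Y →L[ℂ] Y).comp (ContinuousLinearMap.snd ℂ Y Y))).prod
    (((A₂ * R * B₁ : Y →L[ℂ] Y).comp (ContinuousLinearMap.fst ℂ Y Y) +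
      (A₂ * R * B₂ - 1 : Y →L[ℂ] Y).comp (ContinuousLinearMap.snd ℂ Y Y)))
  have hK : IsCompactOperator K := by
    have c1 : IsCompactOperator
        ((A₁ * R * B₁ - 1 : Y →L[ℂ] Y).comp (ContinuousLinearMap.fst ℂ Y Y) +
          (A₁ * R * B₂ : Y →L[ℂ] Y).comp (ContinuousLinearMap.snd ℂ Y Y)) :=
      (k11.comp_clm _).add (k12.comp_clm _)
    have c2 : IsCompactOperator
        ((A₂ * R * B₁ : Y →L[ℂ] Y).comp (ContinuousLinearMap.fst ℂ Y Y) +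
          (A₂ * R * B₂ - 1 : Y →L[ℂ] Y).comp (ContinuousLinearMap.snd ℂ Y Y)) :=
      (k21.comp_clm _).add (k22.comp_clm _)
    have e : (K : (Y × Y) → (Y × Y)) =
        fun z => ContinuousLinearMap.inl ℂ Y Y
          ((((A₁ * R * B₁ - 1 : Y →L[ℂ] Y).comp (ContinuousLinearMap.fst ℂ Y Y) +
          (A₁ * R * B₂ : Y →L[ℂ] Y).comp (ContinuousLinearMap.snd ℂ Y Y))) z) +
          ContinuousLinearMap.inr ℂ Y Y
          ((((A₂ * R * B₁ : Y →L[ℂ] Y).comp (ContinuousLinearMap.fst ℂ Y Y) +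
          (A₂ * R * B₂ - 1 : Y →L[ℂ] Y).comp (ContinuousLinearMap.snd ℂ Y Y))) z) := by
      funext z
      refine Prod.ext ?_ ?_
      · simp [K]
      · simp [K]
    rw [e]
    exact (c1.clm_comp (ContinuousLinearMap.inl ℂ Y Y)).add
      (c2.clm_comp (ContinuousLinearMap.inr ℂ Y Y))
  have hABK : ∀ z, A (R (B z)) = ((1 : (Y × Y) →L[ℂ] (Y × Y)) + K) z := by
    rintro ⟨x, y⟩
    have e1 : A₁ (R (B₁ x)) = x + (A₁ * R * B₁ - 1 : Y →L[ℂ] Y) x := by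
      rw [sub_apply, one_apply_eq_self]
      change A₁ (R (B₁ x)) = x + (A₁ (R (B₁ x)) - x)
      abel
    have e2 : A₂ (R (B₂ y)) = y + (A₂ * R * B₂ - 1 : Y →L[ℂ] Y) y := by
      rw [sub_apply, one_apply_eq_self]
      change A₂ (R (B₂ y)) = y + (A₂ (R (B₂ y)) - y)
      abel
    have e3 : B (x, y) = B₁ x + B₂ y := by simp [B]
    rw [e3, map_add, map_add]
    refine Prod.ext ?_ ?_
    · change A₁ (R (B₁ x)) + A₁ (R (B₂ y)) =
        x + ((A₁ * R * B₁ - 1 : Y →L[ℂ] Y) x + A₁ (R (B₂ y)))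
      rw [e1, add_assoc]
    · change A₂ (R (B₁ x)) + A₂ (R (B₂ y)) =
        y + (A₂ (R (B₁ x)) + (A₂ * R * B₂ - 1 : Y →L[ℂ] Y) y)
      rw [e2]
      abel
  obtain ⟨P, Q, hPQ⟩ := exists_factor (W := Y) (Y := Y) (not_finite' φ hφ) hK
  refine ⟨(Q.comp A).comp U, V.comp (B.comp P), ?_⟩
  ext w
  have := hPQ w
  rw [← hABK] at this
  exact this

end

/-- The Banach space. -/
theorem exists_space : ∃ (E : Type) (_ : NormedAddCommGroup E) (_ : NormedSpace ℂ E)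
    (_ : CompleteSpace E),
    (∀ T : E →L[ℂ] E, ∃ U V : E →L[ℂ] E, U * T * V = 1 ∨ U * (1 - T) * V = 1) ∧
    ∀ C : ℝ, ∃ T : E →L[ℂ] E, ∀ U V : E →L[ℂ] E, (U * T * V = 1 ∨ U * (1 - T) * V = 1) →
      C < ‖U‖ * ‖V‖ := by
  obtain ⟨E, i1, i2, i3, φ, hc, hs, hφ⟩ := main2 nil norm_nil_le
  refine ⟨E, i1, i2, i3, fun T => ?_, fun C => ?_⟩
  · by_cases h : (φ T : MA) 0 0 = 0
    · have h1 : (φ (1 - T) : MA) 0 0 ≠ 0 := by
        rw [map_sub, map_one]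
        change (1 : MA) 0 0 - (φ T : MA) 0 0 ≠ 0
        rw [h, sub_zero]
        simp
      obtain ⟨u, v, huv⟩ := exists_factor_one _ h1
      obtain ⟨U, V, hUV⟩ := lift_factor φ hs hφ huv
      exact ⟨U, V, Or.inr hUV⟩
    · obtain ⟨u, v, huv⟩ := exists_factor_one _ h
      obtain ⟨U, V, hUV⟩ := lift_factor φ hs hφ huv
      exact ⟨U, V, Or.inl hUV⟩
  · -- a bound of the homomorphism
    obtain ⟨M, hM0, hM⟩ : ∃ M : ℝ, 0 < M ∧ ∀ T, ‖φ T‖ ≤ M * ‖T‖ := by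
      let ψ : (E →L[ℂ] E) →L[ℂ] CC := ⟨φ.toLinearMap, hc⟩
      refine ⟨‖ψ‖ + 1, by positivity, fun T => ?_⟩
      have h1 : ‖ψ T‖ ≤ ‖ψ‖ * ‖T‖ := ψ.le_opNorm T
      have h2 : ‖φ T‖ = ‖ψ T‖ := rfl
      rw [h2]
      nlinarith [norm_nonneg T]
    obtain ⟨s, hs1⟩ := exists_nat_gt (M * M * C)
    obtain ⟨T, hT⟩ := hs ⟨mk (algebraMap ℂ OA (1 / 2)) (algebraMap ℂ OA (s : ℂ)), mk_mem _ _⟩
    have hT' : 1 - φ T = ⟨mk (algebraMap ℂ OA (1 / 2)) (algebraMap ℂ OA (-(s : ℂ))),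
        mk_mem _ _⟩ := by
      rw [hT]
      refine Subtype.ext ?_
      change (1 : MA) - mk (algebraMap ℂ OA (1 / 2)) (algebraMap ℂ OA (s : ℂ)) =
        mk (algebraMap ℂ OA (1 / 2)) (algebraMap ℂ OA (-(s : ℂ)))
      rw [← mk_one, mk_sub, zero_sub, ← map_neg, ← map_one (algebraMap ℂ OA), ← map_sub]
      norm_num
    refine ⟨T, fun U V hUV => ?_⟩
    have key : 2 * (s : ℝ) ≤ ‖φ U‖ * ‖φ V‖ := by
      rcases hUV with h | h
      · have h1 : φ U * φ T * φ V = 1 := by rw [← map_mul, ← map_mul, h, map_one]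
        rw [hT] at h1
        have h2 := norm_bound _ _ _ h1
        simpa using h2
      · have h1 : φ U * (1 - φ T) * φ V = 1 := by
          rw [← map_one φ, ← map_sub, ← map_mul, ← map_mul, h]
        rw [hT'] at h1
        have h2 := norm_bound _ _ _ h1
        simpa using h2
    have h3 : ‖φ U‖ * ‖φ V‖ ≤ (M * ‖U‖) * (M * ‖V‖) := by
      gcongr
      · exact hM U
      · exact hM V
    have h4 : (0 : ℝ) ≤ s := Nat.cast_nonneg s
    have h5 : M * M * C < M * M * (‖U‖ * ‖V‖) := by nlinarith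
    exact lt_of_mul_lt_mul_left h5 (by positivity)

end Pool.Agent.R184UP
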