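import Pool.Agent.R184UP.Tests

/-!
Relative commutants of elements of separable unital C*-algebras are Calkin algebras of
Banach spaces.
-/

set_option autoImplicit false

namespace Pool.Agent.R184UP

open Filter Topology Pool.Agent.Helper509.FR Pool.Agent.Helper509.AH

universe u

section

variable {H : Type*} [NormedAddCommGroup H] [InnerProductSpace ℂ H] [CompleteSpace H]

/-- The slow cutoffs are admissible operators. -/
lemma exists_slow (F : Frame H) (γ K : ℕ) : ∃ W ∈ F.WW γ, W * F.q K = F.q K := by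
  obtain ⟨D, hD⟩ := exists_nat_gt ((∑ i ∈ Finset.range (γ + 1), 2 * ‖F.g i‖) / (1 / 2 : ℝ) ^ γ)
  have hs0 : 0 ≤ (∑ i ∈ Finset.range (γ + 1), 2 * ‖F.g i‖) / (1 / 2 : ℝ) ^ γ := by positivity
  have hD0 : (0 : ℝ) < D := lt_of_le_of_lt hs0 hD
  have hD1 : 0 < D := by exact_mod_cast hD0
  refine ⟨F.J (max K γ) D, ⟨(F.J_avg (j := 0) hD1 (Nat.zero_le _)).1,
    ⟨max K γ + D, ?_⟩, fun i hi => ?_⟩, F.J_mul_q hD1 (le_max_left _ _)⟩
  · rw [F.q_mul_J le_rfl, F.J_mul_q' le_rfl]
  · refine (F.J_avg hD1 (hi.trans (le_max_right _ _))).2.trans ?_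
    rw [div_le_iff₀ hD0]
    rw [div_lt_iff₀ (by positivity)] at hD
    have h1 : 2 * ‖F.g i‖ ≤ ∑ i ∈ Finset.range (γ + 1), 2 * ‖F.g i‖ :=
      Finset.single_le_sum (f := fun i => 2 * ‖F.g i‖) (fun j _ => by positivity)
        (Finset.mem_range.2 (by omega))
    linarith [mul_comm (D : ℝ) ((1 / 2 : ℝ) ^ γ)]

end

/-- The commutant of `e` in a separable unital C*-algebra is the quotient of `L(Y)` by the compact
operators, for some Banach space `Y`. -/
theorem main2 {A : Type u} [CStarAlgebra A] [TopologicalSpace.SeparableSpace A] [Nontrivial A]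
    (e : A) (he : ‖e‖ ≤ 1) :
    ∃ (Y : Type u) (_ : NormedAddCommGroup Y) (_ : NormedSpace ℂ Y) (_ : CompleteSpace Y)
      (φ : (Y →L[ℂ] Y) →ₐ[ℂ] Subalgebra.centralizer ℂ ({e} : Set A)),
      Continuous φ ∧ Function.Surjective φ ∧ ∀ T, φ T = 0 ↔ IsCompactOperator T := by
  obtain ⟨H, i1, i2, i3, i4, π, v, hπ, hv, hcomm⟩ := Pool.Agent.Helper509.RP.exists_rep (A := A)
  -- the generators
  have hCcl : IsClosed (Subalgebra.centralizer ℂ ({e} : Set A) : Set A) :=
    Set.isClosed_centralizer _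
  have hCc : CompleteSpace (Subalgebra.centralizer ℂ ({e} : Set A)) := hCcl.completeSpace_coe
  have heC : e ∈ Subalgebra.centralizer ℂ ({e} : Set A) := by
    rw [Subalgebra.mem_centralizer_iff]
    rintro _ rfl
    rfl
  have hCs : TopologicalSpace.SeparableSpace (Subalgebra.centralizer ℂ ({e} : Set A)) :=
    inferInstance
  have hne : Nonempty (Subalgebra.centralizer ℂ ({e} : Set A)) := ⟨0⟩
  obtain ⟨c, hc0, hcd⟩ : ∃ c : ℕ → Subalgebra.centralizer ℂ ({e} : Set A),
      c 0 = ⟨e, heC⟩ ∧ DenseRange c := by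
    refine ⟨fun n => Nat.casesOn n ⟨e, heC⟩
      (TopologicalSpace.denseSeq (Subalgebra.centralizer ℂ ({e} : Set A))), rfl, ?_⟩
    refine (TopologicalSpace.denseRange_denseSeq
      (Subalgebra.centralizer ℂ ({e} : Set A))).mono ?_
    rintro _ ⟨n, rfl⟩
    exact ⟨n + 1, rfl⟩
  obtain ⟨gA, hsa, hgc⟩ : ∃ gA : ℕ → A, (∀ i, IsSelfAdjoint (gA i)) ∧
      ∀ n, gA (2 * n) + Complex.I • gA (2 * n + 1) = c n := by
    refine ⟨fun n => if n % 2 = 0 then ((realPart (c (n / 2) : A) : selfAdjoint A) : A)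
      else ((imaginaryPart (c (n / 2) : A) : selfAdjoint A) : A), fun i => ?_, fun n => ?_⟩
    · dsimp only
      split_ifs
      · exact (realPart (c (i / 2) : A)).2
      · exact (imaginaryPart (c (i / 2) : A)).2
    · have h1 : (2 * n) % 2 = 0 := by omega
      have h2 : (2 * n) / 2 = n := by omega
      have h3 : ¬ (2 * n + 1) % 2 = 0 := by omega
      have h4 : (2 * n + 1) / 2 = n := by omega
      simp only [h1, h2, h3, h4, if_true, if_false]
      exact realPart_add_I_smul_imaginaryPart (c n : A)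
  obtain ⟨F, hFg, hFv⟩ := Pool.Agent.Helper509.FR.exists_frame (fun i => π (gA i)) v
    (by
      intro i x y
      have h1 : star (π (gA i)) = π (gA i) := by rw [← map_star, (hsa i).star_eq]
      rw [ContinuousLinearMap.star_eq_adjoint] at h1
      conv_lhs => rw [← h1]
      rw [ContinuousLinearMap.adjoint_inner_left])
    hv (fun i j => hcomm i (gA j))
  have hFc : ∀ n, F.g (2 * n) + Complex.I • F.g (2 * n + 1) = π (c n) := by
    intro n
    rw [hFg, ← hgc n, map_add, map_smul]
  have hFe : F.g 0 + Complex.I • F.g 1 = π e := by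
    have := hFc 0
    rw [hc0] at this
    exact this
  have he' : ‖π e‖ ≤ 1 := (NonUnitalStarAlgHom.norm_apply_le π e).trans he
  have hp : ∀ m, ∃ M, F.q M * (π e * F.q m) = π e * F.q m := by
    intro m
    refine ⟨m + 2, ?_⟩
    rw [← hFe, add_mul, mul_add, smul_mul_assoc, mul_smul_comm,
      q_g_q F (by omega) (by omega), q_g_q F (by omega) (by omega)]
  obtain ⟨ρ, hρ, hbi⟩ := F.bicomm
  obtain ⟨G⟩ := exists_stages
  obtain ⟨r⟩ := exists_rad ρ G
  obtain ⟨D, hD, hE⟩ := (sys2 F r (π e) he' hp).exists_D G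
  have hk := (sys2 F r (π e) he' hp).kit G
  have hmono : Monotone (sys2 F r (π e) he' hp).UU := (sys2 F r (π e) he' hp).UU_mono
  have hX : CompleteSpace (XX hD) := complete_XX hD hk.fin
  have hZ : Y0 (bd hD hk.mono) (cut2 F r (π e) he' hp) ≤
      Zc (bd hD hk.mono) (cut2 F r (π e) he' hp) :=
    Submodule.le_topologicalClosure _
  have hW := win hmono hD hE (bd hD hk.mono) (cut2 F r (π e) he' hp)
  have hZcl : IsClosed (Zc (bd hD hk.mono) (cut2 F r (π e) he' hp) : Set (XX hD)) :=
    Submodule.isClosed_topologicalClosure _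
  have hZc : CompleteSpace (Zc (bd hD hk.mono) (cut2 F r (π e) he' hp)) :=
    hZcl.completeSpace_coe
  -- operators have a symbol in the algebra
  have H1 : ∀ T : Zc (bd hD hk.mono) (cut2 F r (π e) he' hp) →L[ℂ]
      Zc (bd hD hk.mono) (cut2 F r (π e) he' hp),
      ∃ a : Subalgebra.centralizer ℂ ({e} : Set A), Rel (bd hD hk.mono)
        (cut2 F r (π e) he' hp) T (((lam π).comp
          (Subalgebra.centralizer ℂ ({e} : Set A)).val) a) := by
    intro T
    obtain ⟨s, hs, hs1, hs2⟩ := (sys2 F r (π e) he' hp).exists_symbol hD (bd hD hk.mono) hW hZ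
      ((Zc (bd hD hk.mono) (cut2 F r (π e) he' hp)).subtypeL.comp T)
    -- `s` is in the range of `π`
    have hmem : s ∈ closure (Algebra.adjoin ℂ (Set.range F.g) : Set (H →L[ℂ] H)) := by
      refine hbi s fun δ hδ N => ?_
      obtain ⟨N1, hN1⟩ := hs2 (δ / 2) (half_pos hδ)
      obtain ⟨γ, h1, h2, h3, h4⟩ := hW.wt N1 N
      refine ⟨γ, h1, fun W hWW => ?_⟩
      obtain ⟨w, hw, hWw⟩ := WWc_dense hWW (ε := δ / (4 * (‖s‖ + 1))) (by positivity)
      have h5 := hN1 γ h3 h2 h4 w (Or.inr (Or.inl hw))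
      have h6 : F.q (r.R (G.st γ)) * F.q (ρ γ) = F.q (ρ γ) := by
        rw [F.q_mul, min_eq_right (r.R_rho γ)]
      have h7 : (s * W - W * s) * F.q (ρ γ) = (s * (W - w) - (W - w) * s) * F.q (ρ γ) +
          (s * w - w * s) * F.q (r.R (G.st γ)) * F.q (ρ γ) := by
        rw [mul_assoc (s * w - w * s), h6, ← add_mul]
        congr 1
        simp only [mul_sub, sub_mul]
        abel
      have hq := F.q_opNorm_le (ρ γ)
      have h8 : ‖(s * w - w * s) * F.q (r.R (G.st γ)) * F.q (ρ γ)‖ ≤ δ / 2 := by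
        refine (norm_mul_le _ _).trans ?_
        have := norm_nonneg (F.q (ρ γ))
        have h9 : ‖(s * w - w * s) * F.q (r.R (G.st γ))‖ ≤ δ / 2 := h5
        nlinarith [norm_nonneg ((s * w - w * s) * F.q (r.R (G.st γ)))]
      have h9 : ‖(s * (W - w) - (W - w) * s) * F.q (ρ γ)‖ ≤ δ / 2 := by
        have a1 := norm_mul_le s (W - w)
        have a2 := norm_mul_le (W - w) s
        have a3 := norm_sub_le (s * (W - w)) ((W - w) * s)
        have a4 := norm_nonneg s
        have a5 : ‖s‖ * ‖W - w‖ ≤ δ / 4 := by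
          calc ‖s‖ * ‖W - w‖ ≤ ‖s‖ * (δ / (4 * (‖s‖ + 1))) := by gcongr
            _ = δ / 4 * (‖s‖ / (‖s‖ + 1)) := by field_simp
            _ ≤ δ / 4 * 1 := by
                gcongr
                rw [div_le_one (by positivity)]
                linarith
            _ = δ / 4 := mul_one _
        refine (norm_mul_le _ _).trans ?_
        have a6 : ‖s * (W - w) - (W - w) * s‖ ≤ δ / 2 := by nlinarith
        nlinarith [norm_nonneg (s * (W - w) - (W - w) * s), norm_nonneg (F.q (ρ γ))]
      rw [h7]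
      refine (norm_add_le _ _).trans ?_
      linarith
    have hran : s ∈ Set.range π := by
      have hcl : IsClosed (Set.range π) := hπ.isClosedEmbedding.isClosed_range
      have hsub : (Algebra.adjoin ℂ (Set.range F.g) : Set (H →L[ℂ] H)) ⊆ Set.range π := by
        have h1 : Algebra.adjoin ℂ (Set.range F.g) ≤ (π : A →ₐ[ℂ] (H →L[ℂ] H)).range := by
          rw [Algebra.adjoin_le_iff]
          rintro _ ⟨i, rfl⟩
          rw [hFg]
          exact ⟨gA i, rfl⟩
        intro x hx
        obtain ⟨a, ha⟩ := h1 hx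
        exact ⟨a, ha⟩
      exact (closure_minimal hsub hcl) hmem
    -- `s` commutes with `π e`
    have hcm : ∀ m, ∀ δ > 0, ‖(s * π e - π e * s) * F.q m‖ ≤ 3 * δ := by
      intro m δ hδ
      obtain ⟨N1, hN1⟩ := hs2 δ hδ
      obtain ⟨γ, h1, h2, h3, h4⟩ := hW.wt N1 ((m + 1) ^ 2 + 1)
      have hm : m ≤ r.R (G.st γ) := by
        have h5 := G.le_sq γ
        have h6 := r.R_ge (G.st γ)
        by_contra hcon
        have h7 : G.st γ + 1 ≤ m + 1 := by omega
        have h8 : (G.st γ + 1) ^ 2 ≤ (m + 1) ^ 2 := Nat.pow_le_pow_left h7 2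
        omega
      obtain ⟨W, hW1, hW2⟩ := exists_slow F γ (r.R (G.st γ))
      obtain ⟨w, hw, hWw⟩ := WWc_dense hW1 (ε := δ / (2 * (‖s‖ + 1))) (by positivity)
      have h5 := hN1 γ h3 h2 h4 w (Or.inr (Or.inl hw))
      have h6 := hN1 γ h3 h2 h4 (π e * w) (Or.inr (Or.inr ⟨w, hw, rfl⟩))
      have h5' : ‖(s * w - w * s) * F.q (r.R (G.st γ))‖ ≤ δ := h5
      have h6' : ‖(s * (π e * w) - π e * w * s) * F.q (r.R (G.st γ))‖ ≤ δ := h6
      have hq1 : F.q (r.R (G.st γ)) * F.q m = F.q m := by rw [F.q_mul, min_eq_right hm]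
      have hq := F.q_opNorm_le (r.R (G.st γ))
      have hqm := F.q_opNorm_le m
      have e1 : (s * π e - π e * s) * F.q (r.R (G.st γ)) =
          (s * π e - π e * s) * (W - w) * F.q (r.R (G.st γ)) +
          ((s * (π e * w) - π e * w * s) * F.q (r.R (G.st γ)) -
            π e * ((s * w - w * s) * F.q (r.R (G.st γ)))) := by
        have e2 : (s * π e - π e * s) * F.q (r.R (G.st γ)) =
            (s * π e - π e * s) * W * F.q (r.R (G.st γ)) := by rw [mul_assoc _ W, hW2]
        rw [e2]
        simp only [mul_sub, sub_mul, mul_assoc]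
        abel
      have b1 : ‖(s * π e - π e * s) * (W - w) * F.q (r.R (G.st γ))‖ ≤ δ := by
        have a1 : ‖s * π e - π e * s‖ ≤ 2 * ‖s‖ := by
          have a1 := norm_mul_le s (π e)
          have a2 := norm_mul_le (π e) s
          have a3 := norm_sub_le (s * π e) (π e * s)
          have a4 := norm_nonneg s
          nlinarith [norm_nonneg (π e)]
        refine (norm_mul_le _ _).trans ?_
        have a2 : ‖(s * π e - π e * s) * (W - w)‖ ≤ δ := by
          refine (norm_mul_le _ _).trans ?_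
          calc ‖s * π e - π e * s‖ * ‖W - w‖ ≤ (2 * ‖s‖) * (δ / (2 * (‖s‖ + 1))) := by gcongr
            _ = δ * (‖s‖ / (‖s‖ + 1)) := by field_simp
            _ ≤ δ * 1 := by
                gcongr
                rw [div_le_one (by positivity)]
                linarith
            _ = δ := mul_one _
        calc _ ≤ δ * 1 := by gcongr
          _ = δ := mul_one _
      have b2 : ‖π e * ((s * w - w * s) * F.q (r.R (G.st γ)))‖ ≤ δ := by
        refine (norm_mul_le _ _).trans ?_
        calc _ ≤ 1 * δ := by gcongr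
          _ = δ := one_mul _
      have b3 : ‖(s * π e - π e * s) * F.q (r.R (G.st γ))‖ ≤ 3 * δ := by
        rw [e1]
        refine (norm_add_le _ _).trans ?_
        have := norm_sub_le ((s * (π e * w) - π e * w * s) * F.q (r.R (G.st γ)))
          (π e * ((s * w - w * s) * F.q (r.R (G.st γ))))
        linarith
      calc ‖(s * π e - π e * s) * F.q m‖
          = ‖((s * π e - π e * s) * F.q (r.R (G.st γ))) * F.q m‖ := by
            rw [mul_assoc _ _ (F.q m), hq1]
        _ ≤ ‖(s * π e - π e * s) * F.q (r.R (G.st γ))‖ * ‖F.q m‖ := norm_mul_le _ _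
        _ ≤ (3 * δ) * 1 := by gcongr
        _ = 3 * δ := mul_one _
    have hcm0 : ∀ m, (s * π e - π e * s) * F.q m = 0 := by
      intro m
      rw [← norm_le_zero_iff]
      refine le_of_forall_pos_le_add fun ε hε => ?_
      have := hcm m (ε / 3) (by positivity)
      linarith
    have hse : s * π e = π e * s := by
      rw [← sub_eq_zero]
      ext x
      have h1 : Tendsto (fun m => (s * π e - π e * s) (F.q m x)) atTop
          (𝓝 ((s * π e - π e * s) x)) :=
        ((s * π e - π e * s).continuous.tendsto x).comp (F.q_lim x)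
      have h2 : (fun m => (s * π e - π e * s) (F.q m x)) = fun _ => 0 := by
        funext m
        exact DFunLike.congr_fun (hcm0 m) x
      rw [h2] at h1
      exact tendsto_nhds_unique h1 tendsto_const_nhds
    obtain ⟨a, rfl⟩ := hran
    have haC : a ∈ Subalgebra.centralizer ℂ ({e} : Set A) := by
      rw [Subalgebra.mem_centralizer_iff]
      rintro _ rfl
      apply hπ.injective
      rw [map_mul, map_mul]
      exact hse.symm
    refine ⟨⟨a, haC⟩, fun ε hε => ?_⟩
    obtain ⟨N, hN⟩ := (bd hD hk.mono).tail_of_sv hD hk hW hZ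
      ((Zc (bd hD hk.mono) (cut2 F r (π e) he' hp)).subtypeL.comp T) (act (π a) 1) hs1 hε
    exact ⟨N, fun x hx hx2 γ => hN x hx hx2 γ⟩
  have H2 : ∀ g ∈ Set.range c, ∃ T : Zc (bd hD hk.mono) (cut2 F r (π e) he' hp) →L[ℂ]
      Zc (bd hD hk.mono) (cut2 F r (π e) he' hp),
      Rel (bd hD hk.mono) (cut2 F r (π e) he' hp) T (((lam π).comp
          (Subalgebra.centralizer ℂ ({e} : Set A)).val) g) := by
    rintro _ ⟨n, rfl⟩
    have hec : π e * (F.g (2 * n) + Complex.I • F.g (2 * n + 1)) =
        (F.g (2 * n) + Complex.I • F.g (2 * n + 1)) * π e := by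
      rw [hFc, ← map_mul, ← map_mul]
      congr 1
      exact (Subalgebra.mem_centralizer_iff ℂ).1 (c n).2 e rfl
    have h1 := good2 F r (π e) he' hp (i := 2 * n) (j := 2 * n + 1) (N0 := 2 * n + 1)
      (by omega) le_rfl Complex.I hec
    have h2 : act (F.g (2 * n) + Complex.I • F.g (2 * n + 1)) 1 = ((lam π).comp
          (Subalgebra.centralizer ℂ ({e} : Set A)).val) (c n) := by
      rw [hFc]
      rfl
    rw [h2] at h1
    exact exists_mult hmono hD hE (bd hD hk.mono) (cut2 F r (π e) he' hp) _ (2 * n + 1) _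
      (by positivity) h1
  have hgen : closure (Algebra.adjoin ℂ (Set.range c) :
      Set (Subalgebra.centralizer ℂ ({e} : Set A))) = Set.univ := by
    refine Set.eq_univ_of_univ_subset ?_
    rw [← hcd.closure_range]
    exact closure_mono Algebra.subset_adjoin
  obtain ⟨φ, h1, h2, h3⟩ := calkin_iso hmono hD hE (B := bd hD hk.mono)
    (J := cut2 F r (π e) he' hp)
    (fun n => (sys2 F r (π e) he' hp).fin_UU n)
    ((lam π).comp (Subalgebra.centralizer ℂ ({e} : Set A)).val)
    (fun a => norm_lam π (a : A))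
    (fun a M hM h => by
      have h4 := norm_of_act (sys2 F r (π e) he' hp) (π (a : A)) hM h
      rw [hπ.norm_map_of_map_zero (map_zero π)] at h4
      exact h4)
    H1 (Set.range c) hgen H2
  exact ⟨Zc (bd hD hk.mono) (cut2 F r (π e) he' hp), inferInstance, inferInstance, hZc, φ,
    h1, h2, h3⟩

end Pool.Agent.R184UP
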