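import Pool.Agent.Helper509.AH.Final

/-!
The construction of `Pool.Agent.Helper509.AH` with additional test operators `e * w`, which force
the symbols to commute with `e`.
-/

set_option autoImplicit false

namespace Pool.Agent.R184UP

open Filter Topology Pool.Agent.Helper509.FR Pool.Agent.Helper509.AH

variable {H : Type*} [NormedAddCommGroup H] [InnerProductSpace ℂ H] [CompleteSpace H]
variable {ρ : ℕ → ℕ} {G : Stages}

lemma WWc_count (F : Frame H) (n : ℕ) : (WWc F n).Countable := (exists_WWc F n).choose_spec.1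

lemma WWc_sub {F : Frame H} {n : ℕ} {w : H →L[ℂ] H} (h : w ∈ WWc F n) : w ∈ F.WW n :=
  (exists_WWc F n).choose_spec.2.1 h

lemma WWc_dense {F : Frame H} {n : ℕ} {W : H →L[ℂ] H} (h : W ∈ F.WW n) {ε : ℝ} (hε : 0 < ε) :
    ∃ w ∈ WWc F n, ‖W - w‖ ≤ ε := (exists_WWc F n).choose_spec.2.2 W h ε hε

/-- The system of a frame with the additional tests `e * w`. -/
noncomputable def sys2 (F : Frame H) (r : Rad ρ G) (e : H →L[ℂ] H) (he : ‖e‖ ≤ 1)
    (hp : ∀ m, ∃ M, F.q M * (e * F.q m) = e * F.q m) : HSys H where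
  Q t := F.q (r.R t)
  W n := insert 1 (WWc F n ∪ (fun w => e * w) '' WWc F n)
  sa t := F.q_sa _
  mul s t := by
    rw [F.q_mul]
    congr 1
    rcases le_total s t with h | h
    · rw [min_eq_left h, min_eq_left (r.R_mono h)]
    · rw [min_eq_right h, min_eq_right (r.R_mono h)]
  norm t := F.q_opNorm_le _
  fin t := F.q_fin _
  W_count n := ((WWc_count F n).union ((WWc_count F n).image _)).insert _
  W_norm := by
    rintro n w (rfl | hw | ⟨w, hw, rfl⟩)
    · exact ContinuousLinearMap.norm_id_le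
    · exact (WWc_sub hw).1
    · refine (norm_mul_le _ _).trans ?_
      exact mul_le_one₀ he (norm_nonneg _) (WWc_sub hw).1
  W_one n := Set.mem_insert _ _
  W_map := by
    have key : ∀ n, ∀ w ∈ WWc F n, ∃ M, F.q M * w = w := by
      intro n w hw
      obtain ⟨-, ⟨M, hM⟩, -⟩ := WWc_sub hw
      refine ⟨M, ?_⟩
      calc F.q M * w = F.q M * (F.q M * w * F.q M) := by rw [hM]
        _ = (F.q M * F.q M) * w * F.q M := by simp only [mul_assoc]
        _ = w := by rw [F.q_mul, min_self, hM]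
    have up : ∀ (M : ℕ) (w : H →L[ℂ] H), F.q M * w = w → F.q (r.R M) * w = w := by
      intro M w hw
      calc F.q (r.R M) * w = (F.q (r.R M) * F.q M) * w := by rw [mul_assoc, hw]
        _ = w := by rw [F.q_mul, min_eq_right (r.R_ge M), hw]
    rintro n m w (rfl | hw | ⟨w, hw, rfl⟩)
    · exact ⟨m, by rw [one_mul, F.q_mul, min_self]⟩
    · obtain ⟨M, hM⟩ := key n w hw
      exact ⟨M, by rw [← mul_assoc, up M w hM]⟩
    · obtain ⟨M, hM⟩ := key n w hw
      obtain ⟨M', hM'⟩ := hp M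
      refine ⟨M', ?_⟩
      have h1 : F.q M' * (e * w) = e * w := by
        calc F.q M' * (e * w) = F.q M' * (e * (F.q M * w)) := by rw [hM]
          _ = (F.q M' * (e * F.q M)) * w := by simp only [mul_assoc]
          _ = e * w := by rw [hM', mul_assoc, hM]
      change F.q (r.R M') * ((e * w) * F.q (r.R m)) = (e * w) * F.q (r.R m)
      rw [← mul_assoc, up M' _ h1]
  lim x := (F.q_lim x).comp (tendsto_atTop_mono r.R_ge tendsto_id)

variable (F : Frame H) (r : Rad ρ G) (e : H →L[ℂ] H) (he : ‖e‖ ≤ 1)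
  (hp : ∀ m, ∃ M, F.q M * (e * F.q m) = e * F.q m)

lemma sys2_Q (t : ℕ) : (sys2 F r e he hp).Q t = F.q (r.R t) := rfl

/-- The cutoffs. -/
noncomputable def cut2 : Cut (sys2 F r e he hp).UU := cut F r

/-- The combinations of two generators which commute with `e` are good. -/
lemma good2 {i j N0 : ℕ} (hi : i ≤ N0) (hj : j ≤ N0) (z : ℂ)
    (hec : e * (F.g i + z • F.g j) = (F.g i + z • F.g j) * e) :
    (cut2 F r e he hp).Good G (sys2 F r e he hp).ok (act (F.g i + z • F.g j) 1) N0
      ((2 * ‖F.g i‖ + 1) + ‖z‖ * (2 * ‖F.g j‖ + 1)) := by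
  have hgi := good F r i
  have hgj := good F r j
  have hsplit : ∀ v, act (F.g i + z • F.g j) 1 v = act (F.g i) 1 v + z • act (F.g j) 1 v := by
    intro v
    rw [act_add_left, act_smul_left]
  refine ⟨?_, ?_, ?_, ?_, ?_⟩
  · intro c v hv
    rw [hsplit]
    exact Submodule.add_mem _ (hgi.map_Ξ c v hv) (Submodule.smul_mem _ _ (hgj.map_Ξ c v hv))
  · intro t v
    have key : ∀ k ≤ N0, act (JJ F r t) 1 (act (F.g k) 1 v) - act (F.g k) 1 (act (JJ F r t) 1 v) =
        act (JJ F r t) 1 (act (F.g k) 1 (act (JJ F r (max t N0 + 1)) 1 v)) -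
        act (F.g k) 1 (act (JJ F r t) 1 (act (JJ F r (max t N0 + 1)) 1 v)) := by
      intro k hk
      simp only [act_act, one_mul]
      rw [← act_sub_left, ← act_sub_left]
      congr 1
      have h := comm_JJ F r (i := k) (t := t) (M := max t N0 + 1) (by omega)
      rw [← mul_assoc, ← mul_assoc, ← sub_mul, h]
    have k1 := key i hi
    have k2 := key j hj
    change act (JJ F r t) 1 (act (F.g i + z • F.g j) 1 v) -
      act (F.g i + z • F.g j) 1 (act (JJ F r t) 1 v) =
      act (JJ F r t) 1 (act (F.g i + z • F.g j) 1 (act (JJ F r (max t N0 + 1)) 1 v)) -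
      act (F.g i + z • F.g j) 1 (act (JJ F r t) 1 (act (JJ F r (max t N0 + 1)) 1 v))
    simp only [hsplit, map_add, map_smul]
    have e1 : ∀ a b c d : EE H, a + z • b - (c + z • d) = (a - c) + z • (b - d) := by
      intro a b c d
      rw [smul_sub]; abel
    rw [e1, e1, k1, k2]
  · intro t ht v
    have h1 := hgi.loc_lo t (hi.trans ht) v
    have h2 := hgj.loc_lo t (hj.trans ht) v
    rw [hsplit, map_add, map_smul]
    have h1' : (cut2 F r e he hp).j (t + 1) (act (F.g i) 1 ((cut2 F r e he hp).j t v)) =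
      act (F.g i) 1 ((cut2 F r e he hp).j t v) := h1
    have h2' : (cut2 F r e he hp).j (t + 1) (act (F.g j) 1 ((cut2 F r e he hp).j t v)) =
      act (F.g j) 1 ((cut2 F r e he hp).j t v) := h2
    rw [h1', h2']
  · intro t n ht hn v
    have h1 := hgi.norm t n (hi.trans ht) hn v
    have h2 := hgj.norm t n (hj.trans ht) hn v
    have h1' : ‖(cut2 F r e he hp).j t (act (F.g i) 1 v) -
        act (F.g i) 1 ((cut2 F r e he hp).j t v)‖ ≤ (2 * ‖F.g i‖ + 1) * (1 / 2) ^ n * ‖v‖ := h1
    have h2' : ‖(cut2 F r e he hp).j t (act (F.g j) 1 v) -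
        act (F.g j) 1 ((cut2 F r e he hp).j t v)‖ ≤ (2 * ‖F.g j‖ + 1) * (1 / 2) ^ n * ‖v‖ := h2
    rw [hsplit, hsplit, map_add, map_smul]
    have e1 : ∀ a b c d : EE H, a + z • b - (c + z • d) = (a - c) + z • (b - d) := by
      intro a b c d
      rw [smul_sub]; abel
    rw [e1]
    refine (norm_add_le _ _).trans ?_
    rw [norm_smul]
    have h3 : ‖z‖ * ‖(cut2 F r e he hp).j t (act (F.g j) 1 v) -
        act (F.g j) 1 ((cut2 F r e he hp).j t v)‖ ≤
        ‖z‖ * ((2 * ‖F.g j‖ + 1) * (1 / 2) ^ n * ‖v‖) := by gcongr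
    calc _ ≤ (2 * ‖F.g i‖ + 1) * (1 / 2) ^ n * ‖v‖ +
          ‖z‖ * ((2 * ‖F.g j‖ + 1) * (1 / 2) ^ n * ‖v‖) := add_le_add h1' h3
      _ = _ := by ring
  · intro n hn A hA v
    have hK0 : (0 : ℝ) ≤ ‖F.g i‖ := norm_nonneg _
    have hK1 : (0 : ℝ) ≤ ‖F.g j‖ := norm_nonneg _
    have hz : (0 : ℝ) ≤ ‖z‖ := norm_nonneg _
    have hK : (0 : ℝ) ≤ ((2 * ‖F.g i‖ + 1) + ‖z‖ * (2 * ‖F.g j‖ + 1)) * (1 / 2) ^ n * ‖v‖ := by
      positivity
    rcases hA with rfl | rfl | ⟨w, hw, c, hc, c', hc', rfl⟩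
    · simpa using hK
    · simpa using hK
    · have h3 : ‖c' * c‖ ≤ 1 := by
        refine (norm_mul_le _ _).trans ?_
        have a1 := (sys2 F r e he hp).C_norm hc
        have a2 : ‖c'‖ ≤ 1 := by
          rcases hc' with h | rfl
          · exact (sys2 F r e he hp).C_norm h
          · exact ContinuousLinearMap.norm_id_le
        exact mul_le_one₀ a2 (norm_nonneg _) a1
      have h0 : act (F.g i + z • F.g j) 1 (((1 / 2 : ℂ) • act w (c' * c)) v) -
          ((1 / 2 : ℂ) • act w (c' * c)) (act (F.g i + z • F.g j) 1 v) =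
          (1 / 2 : ℂ) • act ((F.g i + z • F.g j) * w - w * (F.g i + z • F.g j)) (c' * c) v := by
        simp only [smul_apply, map_smul, act_act, one_mul, mul_one]
        rw [act_sub_left, smul_sub]
      -- commutators of admissible operators
      have hcm : ∀ w ∈ F.WW n, ‖(F.g i + z • F.g j) * w - w * (F.g i + z • F.g j)‖ ≤
          (1 + ‖z‖) * (1 / 2) ^ n := by
        intro w hw
        have b1 := hw.2.2 i (hi.trans hn)
        have b2 := hw.2.2 j (hj.trans hn)
        have e2 : (F.g i + z • F.g j) * w - w * (F.g i + z • F.g j) =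
            (F.g i * w - w * F.g i) + z • (F.g j * w - w * F.g j) := by
          rw [add_mul, mul_add, smul_mul_assoc, mul_smul_comm, smul_sub]; abel
        rw [e2]
        refine (norm_add_le _ _).trans ?_
        rw [norm_smul]
        have b3 : ‖z‖ * ‖F.g j * w - w * F.g j‖ ≤ ‖z‖ * (1 / 2) ^ n := by gcongr
        calc _ ≤ (1 / 2) ^ n + ‖z‖ * (1 / 2) ^ n := add_le_add b1 b3
          _ = _ := by ring
      have h1 : ‖(F.g i + z • F.g j) * w - w * (F.g i + z • F.g j)‖ ≤
          (1 + ‖z‖) * (1 / 2) ^ n := by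
        rcases hw with rfl | hw | ⟨w, hw, rfl⟩
        · rw [mul_one, one_mul, sub_self, norm_zero]
          positivity
        · exact hcm w (WWc_sub hw)
        · have e3 : (F.g i + z • F.g j) * (e * w) - e * w * (F.g i + z • F.g j) =
              e * ((F.g i + z • F.g j) * w - w * (F.g i + z • F.g j)) := by
            rw [mul_sub, ← mul_assoc, ← mul_assoc, ← mul_assoc, hec]
          change ‖(F.g i + z • F.g j) * (e * w) - e * w * (F.g i + z • F.g j)‖ ≤ _
          rw [e3]
          refine (norm_mul_le _ _).trans ?_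
          have b1 := hcm w (WWc_sub hw)
          calc ‖e‖ * ‖(F.g i + z • F.g j) * w - w * (F.g i + z • F.g j)‖ ≤
              1 * ((1 + ‖z‖) * (1 / 2) ^ n) := by gcongr
            _ = _ := one_mul _
      rw [h0, norm_smul, HSys.norm_half]
      have h2 := norm_act_apply ((F.g i + z • F.g j) * w - w * (F.g i + z • F.g j)) (c' * c) v
      have h4 : ‖act ((F.g i + z • F.g j) * w - w * (F.g i + z • F.g j)) (c' * c) v‖ ≤
          (1 + ‖z‖) * (1 / 2) ^ n * ‖v‖ := by
        refine h2.trans ?_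
        calc _ ≤ ((1 + ‖z‖) * (1 / 2) ^ n) * 1 * ‖v‖ := by gcongr
          _ = _ := by ring
      have h5 : (0 : ℝ) ≤ (1 / 2) ^ n * ‖v‖ := by positivity
      have h6 : (1 + ‖z‖) * (1 / 2) ^ n * ‖v‖ ≤
          ((2 * ‖F.g i‖ + 1) + ‖z‖ * (2 * ‖F.g j‖ + 1)) * (1 / 2) ^ n * ‖v‖ := by
        rw [mul_assoc, mul_assoc _ _ ‖v‖]
        refine mul_le_mul_of_nonneg_right ?_ h5
        nlinarith [mul_nonneg hz hK1]
      linarith [norm_nonneg (act ((F.g i + z • F.g j) * w - w * (F.g i + z • F.g j)) (c' * c) v)]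

end Pool.Agent.R184UP
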